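import Pool.Agent.Q181.Arc.General

/-!
# The specific arc: a segment with infinitely many thin full turns around the origin
-/

open Set Topology Filter

namespace Q181.Arc

/-- Inner radii of the turns. -/
noncomputable def aa (k : ℕ) : ℝ := (1 / 4) ^ (k + 1)
/-- Outer radii of the turns. -/
noncomputable def bb (k : ℕ) : ℝ := aa k * (101 / 100)

lemma aa_pos (k : ℕ) : 0 < aa k := by unfold aa; positivity
lemma aa_lt_bb (k : ℕ) : aa k < bb k := by unfold bb; nlinarith [aa_pos k]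
lemma aa_le (k : ℕ) : aa k ≤ 1 / 4 := by
  unfold aa
  rw [pow_succ]
  have : ((1 : ℝ) / 4) ^ k ≤ 1 := pow_le_one₀ (by norm_num) (by norm_num)
  linarith
lemma bb_lt_one (k : ℕ) : bb k < 1 := by unfold bb; nlinarith [aa_pos k, aa_le k]

lemma aa_le_of_lt {j k : ℕ} (h : j < k) : aa k ≤ aa j / 4 := by
  unfold aa
  have h1 : ((1 : ℝ) / 4) ^ (k + 1) ≤ (1 / 4) ^ (j + 1 + 1) :=
    pow_le_pow_of_le_one (by norm_num) (by norm_num) (by omega)
  rw [pow_succ _ (j + 1)] at h1
  linarith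

lemma bb_lt_aa {j k : ℕ} (h : j < k) : bb k < aa j := by
  have := aa_le_of_lt h
  have := aa_pos j
  unfold bb
  linarith

lemma turn_unique {j k : ℕ} {t : ℝ} (hj : t ∈ Icc (aa j) (bb j)) (hk : t ∈ Icc (aa k) (bb k)) :
    j = k := by
  rcases lt_trichotomy j k with h | h | h
  · have := bb_lt_aa h
    linarith [hj.1, hk.2]
  · exact h
  · have := bb_lt_aa h
    linarith [hj.2, hk.1]

/-- The phase in the `k`-th turn. -/
noncomputable def phase (k : ℕ) (t : ℝ) : ℝ := 200 * Real.pi * (t / aa k - 1)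

open Classical in
/-- The arc, in complex coordinates. -/
noncomputable def gam (t : ℝ) : ℂ :=
  if h : ∃ k, t ∈ Icc (aa k) (bb k) then t * Complex.exp (phase h.choose t * Complex.I) else t

lemma gam_on {k : ℕ} {t : ℝ} (h : t ∈ Icc (aa k) (bb k)) :
    gam t = t * Complex.exp (phase k t * Complex.I) := by
  have h' : ∃ k, t ∈ Icc (aa k) (bb k) := ⟨k, h⟩
  rw [gam, dif_pos h', turn_unique h'.choose_spec h]

lemma gam_off {t : ℝ} (h : ∀ k, t ∉ Icc (aa k) (bb k)) : gam t = t := by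
  rw [gam, dif_neg]
  push Not
  exact h

lemma gam_aa (k : ℕ) : gam (aa k) = aa k := by
  rw [gam_on (k := k) ⟨le_rfl, (aa_lt_bb k).le⟩, phase, div_self (aa_pos k).ne']
  simp

lemma gam_bb (k : ℕ) : gam (bb k) = bb k := by
  have h1 : phase k (bb k) = 2 * Real.pi := by
    rw [phase, bb]
    field_simp [(aa_pos k).ne']
    ring
  rw [gam_on (k := k) ⟨(aa_lt_bb k).le, le_rfl⟩, h1]
  have : ((2 * Real.pi : ℝ) : ℂ) * Complex.I = 2 * Real.pi * Complex.I := by push_cast; ring
  rw [this, Complex.exp_two_pi_mul_I, mul_one]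

lemma norm_gam (t : ℝ) : ‖gam t‖ = |t| := by
  by_cases h : ∃ k, t ∈ Icc (aa k) (bb k)
  · obtain ⟨k, hk⟩ := h
    rw [gam_on hk, norm_mul, Complex.norm_exp_ofReal_mul_I, mul_one, Complex.norm_real,
      Real.norm_eq_abs]
  · rw [gam_off (by push Not at h; exact h), Complex.norm_real, Real.norm_eq_abs]

lemma exp_lip (x y : ℝ) : ‖Complex.exp (x * Complex.I) - Complex.exp (y * Complex.I)‖ ≤ |x - y| := by
  have h1 : Complex.exp (x * Complex.I) - Complex.exp (y * Complex.I) =
      Complex.exp (y * Complex.I) * (Complex.exp (Complex.I * ((x - y : ℝ) : ℂ)) - 1) := by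
    rw [mul_sub, ← Complex.exp_add, mul_one]
    congr 2
    push_cast; ring
  rw [h1, norm_mul, Complex.norm_exp_ofReal_mul_I, one_mul]
  exact Real.norm_exp_I_mul_ofReal_sub_one_le

lemma gam_lip_on (k : ℕ) {s t : ℝ} (hs : s ∈ Icc (aa k) (bb k)) (ht : t ∈ Icc (aa k) (bb k)) :
    ‖gam t - gam s‖ ≤ 700 * |t - s| := by
  rw [gam_on hs, gam_on ht]
  have h1 : (t : ℂ) * Complex.exp (phase k t * Complex.I) -
      s * Complex.exp (phase k s * Complex.I) =
      ((t - s : ℝ) : ℂ) * Complex.exp (phase k t * Complex.I) +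
        s * (Complex.exp (phase k t * Complex.I) - Complex.exp (phase k s * Complex.I)) := by
    push_cast; ring
  rw [h1]
  have ha := aa_pos k
  have hs0 : 0 ≤ s := ha.le.trans hs.1
  refine (norm_add_le _ _).trans ?_
  rw [norm_mul, norm_mul, Complex.norm_exp_ofReal_mul_I, mul_one, Complex.norm_real,
    Complex.norm_real, Real.norm_eq_abs, Real.norm_eq_abs, abs_of_nonneg hs0]
  have h2 := exp_lip (phase k t) (phase k s)
  have h3 : |phase k t - phase k s| = 200 * Real.pi * |t - s| / aa k := by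
    rw [phase, phase]
    have : 200 * Real.pi * (t / aa k - 1) - 200 * Real.pi * (s / aa k - 1) =
      (200 * Real.pi / aa k) * (t - s) := by field_simp; ring
    rw [this, abs_mul, abs_of_pos (by positivity)]
    ring
  rw [h3] at h2
  have h4 : s * ‖Complex.exp (phase k t * Complex.I) - Complex.exp (phase k s * Complex.I)‖ ≤
      bb k * (200 * Real.pi * |t - s| / aa k) :=
    mul_le_mul hs.2 h2 (norm_nonneg _) (ha.le.trans (aa_lt_bb k).le)
  have h5 : bb k * (200 * Real.pi * |t - s| / aa k) = 202 * Real.pi * |t - s| := by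
    rw [bb]; field_simp; ring
  rw [h5] at h4
  have h6 := Real.pi_lt_d2
  have h7 := abs_nonneg (t - s)
  nlinarith

lemma right_anchor (s : ℝ) : ∃ s', s ≤ s' ∧ gam s' = s' ∧ ‖gam s' - gam s‖ ≤ 700 * (s' - s) ∧
    ((s' = s ∧ ∀ k, s ∉ Icc (aa k) (bb k)) ∨ ∃ k, s ∈ Icc (aa k) (bb k) ∧ s' = bb k) := by
  by_cases h : ∃ k, s ∈ Icc (aa k) (bb k)
  · obtain ⟨k, hk⟩ := h
    refine ⟨bb k, hk.2, gam_bb k, ?_, Or.inr ⟨k, hk, rfl⟩⟩
    have := gam_lip_on k hk ⟨(aa_lt_bb k).le, le_rfl⟩
    rwa [abs_of_nonneg (sub_nonneg.2 hk.2)] at this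
  · push Not at h
    exact ⟨s, le_rfl, gam_off h, by simp, Or.inl ⟨rfl, h⟩⟩

lemma left_anchor (t : ℝ) : ∃ t', t' ≤ t ∧ gam t' = t' ∧ ‖gam t - gam t'‖ ≤ 700 * (t - t') ∧
    ((t' = t ∧ ∀ k, t ∉ Icc (aa k) (bb k)) ∨ ∃ k, t ∈ Icc (aa k) (bb k) ∧ t' = aa k) := by
  by_cases h : ∃ k, t ∈ Icc (aa k) (bb k)
  · obtain ⟨k, hk⟩ := h
    refine ⟨aa k, hk.1, gam_aa k, ?_, Or.inr ⟨k, hk, rfl⟩⟩
    have := gam_lip_on k ⟨le_rfl, (aa_lt_bb k).le⟩ hk
    rwa [abs_of_nonneg (sub_nonneg.2 hk.1)] at this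
  · push Not at h
    exact ⟨t, le_rfl, gam_off h, by simp, Or.inl ⟨rfl, h⟩⟩

lemma gam_lip_le {s t : ℝ} (hst : s ≤ t) : ‖gam t - gam s‖ ≤ 700 * (t - s) := by
  by_cases hk : ∃ k, s ∈ Icc (aa k) (bb k) ∧ t ∈ Icc (aa k) (bb k)
  · obtain ⟨k, h1, h2⟩ := hk
    have := gam_lip_on k h1 h2
    rwa [abs_of_nonneg (sub_nonneg.2 hst)] at this
  push Not at hk
  obtain ⟨s', hs1, hs2, hs3, hs4⟩ := right_anchor s
  obtain ⟨t', ht1, ht2, ht3, ht4⟩ := left_anchor t
  have hle : s' ≤ t' := by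
    rcases hs4 with ⟨rfl, hs4⟩ | ⟨k, hsk, rfl⟩
    · rcases ht4 with ⟨rfl, -⟩ | ⟨j, htj, rfl⟩
      · exact hst
      · by_contra hcon
        push Not at hcon
        exact hs4 j ⟨hcon.le, hst.trans htj.2⟩
    · have h1 := hk k hsk
      rcases ht4 with ⟨rfl, -⟩ | ⟨j, htj, rfl⟩
      · by_contra hcon
        push Not at hcon
        exact h1 ⟨hsk.1.trans hst, hcon.le⟩
      · rcases lt_trichotomy j k with h2 | h2 | h2
        · exact (bb_lt_aa h2).le
        · subst h2; exact absurd htj h1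
        · have := bb_lt_aa h2
          linarith [hsk.1, htj.2]
  have h1 : gam t - gam s = (gam t - gam t') + ((t' - s' : ℝ) : ℂ) + (gam s' - gam s) := by
    rw [hs2, ht2]; push_cast; ring
  rw [h1]
  refine (norm_add₃_le).trans ?_
  rw [Complex.norm_real, Real.norm_eq_abs, abs_of_nonneg (sub_nonneg.2 hle)]
  linarith [sub_nonneg.2 hle]

lemma gam_lip (s t : ℝ) : ‖gam t - gam s‖ ≤ 700 * |t - s| := by
  rcases le_total s t with h | h
  · rw [abs_of_nonneg (sub_nonneg.2 h)]; exact gam_lip_le h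
  · rw [abs_sub_comm, abs_of_nonneg (sub_nonneg.2 h), norm_sub_rev]; exact gam_lip_le h

/-- Distance of the arc from the centre of the hole. -/
lemma gam_far (k : ℕ) {t : ℝ} (ht : 0 ≤ t) : aa k / 5 ≤ ‖gam t - ((-(aa k / 2) : ℝ) : ℂ)‖ := by
  have ha := aa_pos k
  rcases le_or_gt (aa k) t with h | h
  · have h1 := norm_sub_norm_le (gam t) ((-(aa k / 2) : ℝ) : ℂ)
    rw [norm_gam, Complex.norm_real, Real.norm_eq_abs, abs_neg, abs_of_nonneg ht,
      abs_of_pos (by positivity)] at h1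
    linarith
  · by_cases hj : ∃ j, t ∈ Icc (aa j) (bb j)
    · obtain ⟨j, hj⟩ := hj
      have hkj : k < j := by
        rcases lt_trichotomy j k with h2 | h2 | h2
        · have := aa_le_of_lt h2
          linarith [hj.1, aa_pos j]
        · subst h2; linarith [hj.1]
        · exact h2
      have h3 := aa_le_of_lt hkj
      have h4 : t ≤ aa k / 4 * (101 / 100) := by
        have := hj.2
        rw [bb] at this
        linarith
      have h1 := norm_sub_norm_le ((-(aa k / 2) : ℝ) : ℂ) (gam t)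
      rw [norm_gam, Complex.norm_real, Real.norm_eq_abs, abs_neg, abs_of_nonneg ht,
        abs_of_pos (by positivity)] at h1
      rw [norm_sub_rev]
      linarith
    · rw [gam_off (by push Not at hj; exact hj)]
      have h1 : (t : ℂ) - ((-(aa k / 2) : ℝ) : ℂ) = ((t + aa k / 2 : ℝ) : ℂ) := by push_cast; ring
      rw [h1, Complex.norm_real, Real.norm_eq_abs, abs_of_nonneg (by positivity)]
      linarith

/-- The continuous logarithm of `gam t + a/2` in the `k`-th turn. -/
noncomputable def lift (k : ℕ) (t : ℝ) : ℂ :=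
  Complex.log t + phase k t * Complex.I +
    Complex.log (1 + (aa k / 2 : ℝ) / t * Complex.exp (-(phase k t * Complex.I)))

lemma lift_arg_bound {k : ℕ} {t : ℝ} (h : t ∈ Icc (aa k) (bb k)) :
    ‖((aa k / 2 : ℝ) : ℂ) / t * Complex.exp (-(phase k t * Complex.I))‖ < 1 := by
  have ha := aa_pos k
  have ht : 0 < t := ha.trans_le h.1
  have h1 : Complex.exp (-(phase k t * Complex.I)) =
      Complex.exp (((-phase k t : ℝ) : ℂ) * Complex.I) := by push_cast; ring_nf
  rw [norm_mul, norm_div, h1, Complex.norm_exp_ofReal_mul_I, mul_one, Complex.norm_real,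
    Complex.norm_real, Real.norm_eq_abs, Real.norm_eq_abs, abs_of_pos ht,
    abs_of_pos (by positivity), div_lt_one ht]
  linarith [h.1]

lemma exp_lift {k : ℕ} {t : ℝ} (h : t ∈ Icc (aa k) (bb k)) :
    Complex.exp (lift k t) = gam t - ((-(aa k / 2) : ℝ) : ℂ) := by
  have ha := aa_pos k
  have ht : 0 < t := ha.trans_le h.1
  have ht' : (t : ℂ) ≠ 0 := by exact_mod_cast ht.ne'
  have hne : (1 : ℂ) + (aa k / 2 : ℝ) / t * Complex.exp (-(phase k t * Complex.I)) ≠ 0 :=
    Complex.slitPlane_ne_zero (Complex.mem_slitPlane_of_norm_lt_one (lift_arg_bound h))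
  rw [lift, Complex.exp_add, Complex.exp_add, Complex.exp_log ht', Complex.exp_log hne, gam_on h,
    Complex.exp_neg]
  have hexp := Complex.exp_ne_zero (phase k t * Complex.I)
  field_simp
  push_cast
  ring

lemma lift_continuousOn (k : ℕ) : ContinuousOn (lift k) (Icc (aa k) (bb k)) := by
  have ha := aa_pos k
  unfold lift
  have hphase : Continuous (phase k) := by unfold phase; fun_prop
  have h1 : ContinuousOn (fun t : ℝ => ((t : ℝ) : ℂ)) (Icc (aa k) (bb k)) :=
    Complex.continuous_ofReal.continuousOn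
  refine ContinuousOn.add (ContinuousOn.add ?_ ?_) ?_
  · refine h1.clog fun t ht => ?_
    rw [Complex.ofReal_mem_slitPlane]
    exact ha.trans_le ht.1
  · exact ((Complex.continuous_ofReal.comp hphase).mul continuous_const).continuousOn
  · refine ContinuousOn.clog ?_ fun t ht => Complex.mem_slitPlane_of_norm_lt_one (lift_arg_bound ht)
    refine continuousOn_const.add (ContinuousOn.mul ?_ ?_)
    · refine continuousOn_const.div h1 fun t ht => ?_
      exact_mod_cast (ha.trans_le ht.1).ne'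
    · exact (Complex.continuous_exp.comp
        ((Complex.continuous_ofReal.comp hphase).mul continuous_const).neg).continuousOn

lemma lift_im (k : ℕ) : (lift k (bb k)).im - (lift k (aa k)).im = 2 * Real.pi := by
  have ha := aa_pos k
  have hb : 0 < bb k := ha.trans (aa_lt_bb k)
  have h1 : phase k (bb k) = 2 * Real.pi := by
    rw [phase, bb]
    field_simp [(aa_pos k).ne']
    ring
  have h2 : phase k (aa k) = 0 := by
    rw [phase, div_self ha.ne']; simp
  have h3 : Complex.exp (-(((2 * Real.pi : ℝ) : ℂ) * Complex.I)) = 1 := by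
    rw [Complex.exp_neg]
    have : ((2 * Real.pi : ℝ) : ℂ) * Complex.I = 2 * Real.pi * Complex.I := by push_cast; ring
    rw [this, Complex.exp_two_pi_mul_I, inv_one]
  have h4 : ∀ x : ℝ, 0 < x → (Complex.log (x : ℂ)).im = 0 := by
    intro x hx
    rw [← Complex.ofReal_log hx.le]; simp
  have h5 : ∀ t : ℝ, 0 < t → (Complex.log (1 + (aa k / 2 : ℝ) / t * 1)).im = 0 := by
    intro t ht
    have : (1 : ℂ) + (aa k / 2 : ℝ) / t * 1 = ((1 + aa k / 2 / t : ℝ) : ℂ) := by push_cast; ring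
    rw [this]
    exact h4 _ (by positivity)
  rw [lift, lift, h1, h2, h3]
  simp only [Complex.add_im, h4 _ hb, h4 _ ha]
  have h6 : Complex.exp (-(((0 : ℝ) : ℂ) * Complex.I)) = 1 := by simp
  rw [h6, h5 _ hb, h5 _ ha]
  simp

end Q181.Arc
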