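import Mathlib

/-!
# The setting: compact subsets of Euclidean space with a geodesic intrinsic metric
-/

open Set Topology Filter

namespace Q181.Arc

/-- The intrinsic metric: the infimum of the Euclidean lengths of paths in `M` from `p` to `q`. -/
noncomputable def intrinsic {N : ℕ} (M : Set (EuclideanSpace ℝ (Fin N))) (p q : M) : ENNReal :=
  ⨅ c : Path p q, eVariationOn (fun t => (c t : EuclideanSpace ℝ (Fin N))) Set.univ

/-- `(M, d_M)` is a geodesic space: `d_M` is finite and any two points `p`, `q` are joined by an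
isometry `c` from `[0, d_M(p,q)]` to `M` with `c(0) = p` and `c(d_M(p,q)) = q`. -/
def IsGeodesic {N : ℕ} (M : Set (EuclideanSpace ℝ (Fin N))) : Prop :=
  ∀ p q : M, intrinsic M p q ≠ ⊤ ∧ ∃ c : ℝ → M, c 0 = p ∧ c (intrinsic M p q).toReal = q ∧
    ∀ s ∈ Icc 0 (intrinsic M p q).toReal, ∀ t ∈ Icc 0 (intrinsic M p q).toReal,
      intrinsic M (c s) (c t) = ENNReal.ofReal |s - t|

/-- The closed neighbourhood `N_r(M)`. -/
def nbhd {N : ℕ} (M : Set (EuclideanSpace ℝ (Fin N))) (r : ℝ) :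
    Set (EuclideanSpace ℝ (Fin N)) := {x | Metric.infDist x M ≤ r}

/-- Condition (M1): maps to `M` which are uniformly close for `d_M` are homotopic. -/
def M1.{u} {N : ℕ} (M : Set (EuclideanSpace ℝ (Fin N))) : Prop :=
  ∃ ρ : ℝ, 0 < ρ ∧ ∀ (X : Type u) [TopologicalSpace X] (f g : C(X, M)),
    (∀ x, intrinsic M (f x) (g x) < ENNReal.ofReal ρ) → f.Homotopic g

/-- Condition (M2): `d_M` and the Euclidean metric are locally bi-Lipschitz. -/
def M2 {N : ℕ} (M : Set (EuclideanSpace ℝ (Fin N))) : Prop :=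
  ∃ δ : ℝ, 0 < δ ∧ ∃ ξ : ℝ, 1 < ξ ∧ ∀ p q : M, dist p q < δ →
    ENNReal.ofReal (dist p q) ≤ intrinsic M p q ∧
      intrinsic M p q ≤ ENNReal.ofReal (ξ * dist p q)

/-- Condition (M3) for a retraction `π` of `U` onto `M`. -/
def M3 {N : ℕ} (M U : Set (EuclideanSpace ℝ (Fin N)))
    (π : EuclideanSpace ℝ (Fin N) → EuclideanSpace ℝ (Fin N)) : Prop :=
  ∃ ε : ℝ → ℝ, (∀ r > 0, nbhd M r ⊆ U → 0 < ε r ∧ ∀ x ∈ nbhd M r, ‖π x - x‖ < ε r) ∧
    Tendsto ε (𝓝[>] 0) (𝓝 0)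

/-- The standing assumptions on `M`. -/
def Admissible.{u} {N : ℕ} (M : Set (EuclideanSpace ℝ (Fin N))) : Prop :=
  IsCompact M ∧ IsConnected M ∧ IsGeodesic M ∧
    (∃ (U : Set (EuclideanSpace ℝ (Fin N))) (π : EuclideanSpace ℝ (Fin N) →
        EuclideanSpace ℝ (Fin N)), U ∈ 𝓝ˢ M ∧ ContinuousOn π U ∧ MapsTo π U M ∧
        (∀ p ∈ M, π p = p) ∧ M3 M U π) ∧
    M1.{u} M ∧ M2 M

/-- The Euclidean Vietoris-Rips complex of `S` at scale `β`. -/
def rips {N : ℕ} (S : Set (EuclideanSpace ℝ (Fin N))) (β : ℝ) :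
    Set (Finset (EuclideanSpace ℝ (Fin N))) :=
  {σ | σ.Nonempty ∧ (σ : Set (EuclideanSpace ℝ (Fin N))) ⊆ S ∧
    Metric.diam (σ : Set (EuclideanSpace ℝ (Fin N))) < β}

/-- The shadow of a simplicial complex with vertices in `ℝ^N`. -/
def shadow {N : ℕ} (K : Set (Finset (EuclideanSpace ℝ (Fin N)))) :
    Set (EuclideanSpace ℝ (Fin N)) :=
  ⋃ σ ∈ K, convexHull ℝ (σ : Set (EuclideanSpace ℝ (Fin N)))

end Q181.Arc
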