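import Pool.Agent.Q181.Arc.Defs

/-!
# Lipschitz arcs `γ : [0,1] → ℝ^N` with `‖γ t‖ = t` are admissible
-/

open Set Topology Filter

namespace Q181.Arc

variable {N : ℕ} {γ : ℝ → EuclideanSpace ℝ (Fin N)} {Λ : NNReal}

/-- The hypotheses on the arc. -/
structure RadialArc (γ : ℝ → EuclideanSpace ℝ (Fin N)) (Λ : NNReal) : Prop where
  norm_eq : ∀ t ∈ Icc (0 : ℝ) 1, ‖γ t‖ = t
  lip : LipschitzOnWith Λ γ (Icc 0 1)

namespace RadialArc

variable (h : RadialArc γ Λ)
include h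

lemma cont : ContinuousOn γ (Icc 0 1) := h.lip.continuousOn

lemma compact : IsCompact (γ '' Icc 0 1) := isCompact_Icc.image_of_continuousOn h.cont

lemma connected : IsConnected (γ '' Icc 0 1) :=
  (isConnected_Icc zero_le_one).image _ h.cont

omit h in
lemma mem (t : ℝ) (ht : t ∈ Icc (0 : ℝ) 1) : γ t ∈ γ '' Icc 0 1 := ⟨t, ht, rfl⟩

lemma norm_mem {p : EuclideanSpace ℝ (Fin N)} (hp : p ∈ γ '' Icc 0 1) : ‖p‖ ∈ Icc (0 : ℝ) 1 := by
  obtain ⟨t, ht, rfl⟩ := hp
  rwa [h.norm_eq t ht]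

lemma apply_norm {p : EuclideanSpace ℝ (Fin N)} (hp : p ∈ γ '' Icc 0 1) : γ ‖p‖ = p := by
  obtain ⟨t, ht, rfl⟩ := hp
  rw [h.norm_eq t ht]

/-- The lower bound for the length of paths. -/
lemma le_variation {p q : γ '' Icc 0 1} (hpq : ‖(p : EuclideanSpace ℝ (Fin N))‖ ≤
    ‖(q : EuclideanSpace ℝ (Fin N))‖) (c : Path p q) :
    eVariationOn γ (Icc ‖(p : EuclideanSpace ℝ (Fin N))‖ ‖(q : EuclideanSpace ℝ (Fin N))‖) ≤
      eVariationOn (fun t => (c t : EuclideanSpace ℝ (Fin N))) univ := by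
  set s := ‖(p : EuclideanSpace ℝ (Fin N))‖ with hs
  set t := ‖(q : EuclideanSpace ℝ (Fin N))‖ with ht
  -- the radius along the path
  let u : unitInterval → ℝ := fun τ => ‖(c τ : EuclideanSpace ℝ (Fin N))‖
  have hu : Continuous u := by
    have : Continuous fun τ => (c τ : EuclideanSpace ℝ (Fin N)) :=
      continuous_subtype_val.comp c.continuous
    exact this.norm
  have hu0 : u 0 = s := by simp [u, hs]
  have hu1 : u 1 = t := by simp [u, ht]
  -- first hitting times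
  have hne : ∀ x ∈ Icc s t, {τ : unitInterval | x ≤ u τ}.Nonempty := fun x hx =>
    ⟨1, by rw [mem_ofPred_eq, hu1]; exact hx.2⟩
  let τ : ℝ → unitInterval := fun x => sInf {τ : unitInterval | x ≤ u τ}
  have hτmem : ∀ x ∈ Icc s t, x ≤ u (τ x) := by
    intro x hx
    have hcl : IsClosed {τ : unitInterval | x ≤ u τ} := isClosed_le continuous_const hu
    exact hcl.csInf_mem (hne x hx) (OrderBot.bddBelow _)
  have hτ : ∀ x ∈ Icc s t, u (τ x) = x := by
    intro x hx
    refine le_antisymm ?_ (hτmem x hx)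
    by_contra hcon
    push Not at hcon
    -- there is an earlier time with value `x`
    have h1 : x ∈ Icc (u 0) (u (τ x)) := ⟨by rw [hu0]; exact hx.1, hcon.le⟩
    obtain ⟨σ, hσ, hσx⟩ := intermediate_value_Icc (α := unitInterval)
      (show (0 : unitInterval) ≤ τ x from bot_le) hu.continuousOn h1
    have h2 : τ x ≤ σ := csInf_le (OrderBot.bddBelow _) (show x ≤ u σ from hσx.ge)
    have h3 : σ = τ x := le_antisymm hσ.2 h2
    rw [← h3, hσx] at hcon
    exact lt_irrefl _ hcon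
  have hmono : MonotoneOn τ (Icc s t) := by
    intro x _ y hy hxy
    exact csInf_le_csInf (OrderBot.bddBelow _) (hne y hy) fun σ hσ => hxy.trans hσ
  have heq : EqOn γ ((fun t => (c t : EuclideanSpace ℝ (Fin N))) ∘ τ) (Icc s t) := by
    intro x hx
    have h1 := h.apply_norm (c (τ x)).2
    have h2 : ‖(c (τ x) : EuclideanSpace ℝ (Fin N))‖ = x := hτ x hx
    rw [h2] at h1
    exact h1
  rw [eVariationOn.eq_of_eqOn heq]
  exact eVariationOn.comp_le_of_monotoneOn _ τ hmono fun _ _ => mem_univ _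

/-- The affine path between two points. -/
lemma exists_path {p q : γ '' Icc 0 1} (hpq : ‖(p : EuclideanSpace ℝ (Fin N))‖ ≤
    ‖(q : EuclideanSpace ℝ (Fin N))‖) :
    ∃ c : Path p q, eVariationOn (fun t => (c t : EuclideanSpace ℝ (Fin N))) univ ≤
      eVariationOn γ (Icc ‖(p : EuclideanSpace ℝ (Fin N))‖ ‖(q : EuclideanSpace ℝ (Fin N))‖) := by
  set s := ‖(p : EuclideanSpace ℝ (Fin N))‖ with hs
  set t := ‖(q : EuclideanSpace ℝ (Fin N))‖ with ht
  have hs' := h.norm_mem p.2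
  have ht' := h.norm_mem q.2
  let φ : unitInterval → ℝ := fun τ => s + τ * (t - s)
  have hφ : ∀ τ, φ τ ∈ Icc s t := fun τ =>
    ⟨by have := mul_nonneg τ.2.1 (sub_nonneg.2 hpq); simp only [φ]; linarith,
     by have := mul_le_of_le_one_left (sub_nonneg.2 hpq) τ.2.2; simp only [φ]; linarith⟩
  have hφ' : ∀ τ, φ τ ∈ Icc (0 : ℝ) 1 := fun τ =>
    ⟨hs'.1.trans (hφ τ).1, (hφ τ).2.trans ht'.2⟩
  have hφc : Continuous φ := by fun_prop
  let c : Path p q :=
    { toFun := fun τ => ⟨γ (φ τ), mem _ (hφ' τ)⟩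
      continuous_toFun := by
        refine Continuous.subtype_mk ?_ _
        exact h.cont.comp_continuous hφc hφ'
      source' := by
        apply Subtype.ext
        simp only [φ, Set.Icc.coe_zero, zero_mul, add_zero]
        exact h.apply_norm p.2
      target' := by
        apply Subtype.ext
        simp only [φ, Set.Icc.coe_one, one_mul, add_sub_cancel]
        exact h.apply_norm q.2 }
  refine ⟨c, ?_⟩
  have : (fun τ => (c τ : EuclideanSpace ℝ (Fin N))) = γ ∘ φ := rfl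
  rw [this]
  refine eVariationOn.comp_le_of_monotoneOn _ φ ?_ fun τ _ => hφ τ
  intro x _ y _ hxy
  have hxy' : (x : ℝ) ≤ y := hxy
  have := mul_le_mul_of_nonneg_right hxy' (sub_nonneg.2 hpq)
  simp only [φ]; linarith

omit h in
lemma intrinsic_symm {M : Set (EuclideanSpace ℝ (Fin N))} (p q : M) :
    intrinsic M p q = intrinsic M q p := by
  have key : ∀ p q : M, intrinsic M p q ≤ intrinsic M q p := by
    intro p q
    refine le_iInf fun c => ?_
    refine (iInf_le _ c.symm).trans ?_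
    have : (fun t => (c.symm t : EuclideanSpace ℝ (Fin N))) =
        (fun t => (c t : EuclideanSpace ℝ (Fin N))) ∘ unitInterval.symm := rfl
    rw [this]
    refine eVariationOn.comp_le_of_antitoneOn _ _ ?_ fun _ _ => mem_univ _
    intro x _ y _ hxy
    exact unitInterval.symm_le_symm.2 hxy
  exact le_antisymm (key p q) (key q p)

lemma intrinsic_eq {p q : γ '' Icc 0 1} (hpq : ‖(p : EuclideanSpace ℝ (Fin N))‖ ≤
    ‖(q : EuclideanSpace ℝ (Fin N))‖) : intrinsic (γ '' Icc 0 1) p q =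
    eVariationOn γ (Icc ‖(p : EuclideanSpace ℝ (Fin N))‖ ‖(q : EuclideanSpace ℝ (Fin N))‖) := by
  refine le_antisymm ?_ (le_iInf fun c => h.le_variation hpq c)
  obtain ⟨c, hc⟩ := h.exists_path hpq
  exact (iInf_le _ c).trans hc

lemma variation_le {s t : ℝ} (hs : 0 ≤ s) (hst : s ≤ t) (ht : t ≤ 1) :
    eVariationOn γ (Icc s t) ≤ ENNReal.ofReal (Λ * (t - s)) := by
  have h1 := h.lip.comp_eVariationOn_le (g := id) (s := Icc s t)
    (fun x hx => ⟨hs.trans hx.1, hx.2.trans ht⟩)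
  have h2 : eVariationOn (id : ℝ → ℝ) (Icc s t) ≤ ENNReal.ofReal (t - s) := by
    have h3 := MonotoneOn.eVariationOn_eq (f := (id : ℝ → ℝ)) (s := Icc s t) (a := s) (b := t)
      (monotone_id.monotoneOn _) (left_mem_Icc.2 hst) (right_mem_Icc.2 hst)
    rw [inter_self] at h3
    exact h3.le
  refine h1.trans ?_
  rw [ENNReal.ofReal_mul Λ.coe_nonneg, ENNReal.ofReal_coe_nnreal]
  exact mul_le_mul_right h2 _

lemma le_variation' {s t : ℝ} (hs : 0 ≤ s) (hst : s ≤ t) (ht : t ≤ 1) :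
    ENNReal.ofReal (t - s) ≤ eVariationOn γ (Icc s t) := by
  refine le_trans ?_ (eVariationOn.edist_le γ (left_mem_Icc.2 hst) (right_mem_Icc.2 hst))
  rw [edist_dist]
  refine ENNReal.ofReal_le_ofReal ?_
  rw [dist_comm, dist_eq_norm]
  have := norm_sub_norm_le (γ t) (γ s)
  rw [h.norm_eq t ⟨hs.trans hst, ht⟩, h.norm_eq s ⟨hs, hst.trans ht⟩] at this
  exact this

/-- The arc length. -/
noncomputable def V (γ : ℝ → EuclideanSpace ℝ (Fin N)) (x : ℝ) : ℝ :=
  (eVariationOn γ (Icc 0 x)).toReal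

lemma variation_ne_top {s t : ℝ} (hs : 0 ≤ s) (ht : t ≤ 1) :
    eVariationOn γ (Icc s t) ≠ ⊤ := by
  rcases le_or_gt s t with hst | hst
  · exact ne_top_of_le_ne_top ENNReal.ofReal_ne_top (h.variation_le hs hst ht)
  · rw [Icc_eq_empty (not_le.2 hst), eVariationOn.subsingleton _ subsingleton_empty]
    exact ENNReal.zero_ne_top

lemma V_sub {s t : ℝ} (hs : 0 ≤ s) (hst : s ≤ t) (ht : t ≤ 1) :
    ENNReal.ofReal (V γ t - V γ s) = eVariationOn γ (Icc s t) := by
  have h1 := eVariationOn.Icc_add_Icc γ (s := univ) hs hst (mem_univ _)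
  simp only [univ_inter] at h1
  have h2 : V γ t - V γ s = (eVariationOn γ (Icc s t)).toReal := by
    rw [V, V, ← h1, ENNReal.toReal_add (h.variation_ne_top le_rfl (hst.trans ht))
      (h.variation_ne_top hs ht)]
    ring
  rw [h2, ENNReal.ofReal_toReal (h.variation_ne_top hs ht)]

lemma V_sub_bounds {s t : ℝ} (hs : 0 ≤ s) (hst : s ≤ t) (ht : t ≤ 1) :
    t - s ≤ V γ t - V γ s ∧ V γ t - V γ s ≤ Λ * (t - s) := by
  have h1 := h.V_sub hs hst ht
  have h2 := h.variation_le hs hst ht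
  have h3 := h.le_variation' hs hst ht
  rw [← h1] at h2 h3
  constructor
  · rcases hst.eq_or_lt with h4 | h4
    · subst h4; simp
    · have h5 : 0 < V γ t - V γ s := by
        have := lt_of_lt_of_le (ENNReal.ofReal_pos.2 (sub_pos.2 h4)) h3
        exact ENNReal.ofReal_pos.1 this
      exact (ENNReal.ofReal_le_ofReal_iff h5.le).1 h3
  · have h5 : 0 ≤ (Λ : ℝ) * (t - s) := mul_nonneg Λ.coe_nonneg (sub_nonneg.2 hst)
    exact (ENNReal.ofReal_le_ofReal_iff h5).1 h2

lemma intrinsic_eq_abs (p q : γ '' Icc 0 1) : intrinsic (γ '' Icc 0 1) p q =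
    ENNReal.ofReal |V γ ‖(p : EuclideanSpace ℝ (Fin N))‖ - V γ ‖(q : EuclideanSpace ℝ (Fin N))‖| := by
  have hp := h.norm_mem p.2
  have hq := h.norm_mem q.2
  rcases le_total ‖(p : EuclideanSpace ℝ (Fin N))‖ ‖(q : EuclideanSpace ℝ (Fin N))‖ with hpq | hpq
  · rw [h.intrinsic_eq hpq, ← h.V_sub hp.1 hpq hq.2, abs_sub_comm, abs_of_nonneg]
    have := (h.V_sub_bounds hp.1 hpq hq.2).1
    linarith
  · rw [intrinsic_symm, h.intrinsic_eq hpq, ← h.V_sub hq.1 hpq hp.2, abs_of_nonneg]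
    have := (h.V_sub_bounds hq.1 hpq hp.2).1
    linarith

lemma V_cont : ContinuousOn (V γ) (Icc 0 1) := by
  have : LipschitzOnWith Λ (V γ) (Icc 0 1) := by
    refine LipschitzOnWith.of_dist_le_mul fun x hx y hy => ?_
    rw [Real.dist_eq, Real.dist_eq]
    rcases le_total x y with hxy | hxy
    · have := h.V_sub_bounds hx.1 hxy hy.2
      rw [abs_sub_comm, abs_sub_comm x, abs_of_nonneg (by linarith), abs_of_nonneg (by linarith)]
      exact this.2
    · have := h.V_sub_bounds hy.1 hxy hx.2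
      rw [abs_of_nonneg (by linarith), abs_of_nonneg (by linarith)]
      exact this.2
  exact this.continuousOn

lemma V_inj {x y : ℝ} (hx : x ∈ Icc (0 : ℝ) 1) (hy : y ∈ Icc (0 : ℝ) 1) (hxy : V γ x = V γ y) :
    x = y := by
  rcases le_total x y with hxy' | hxy'
  · have := h.V_sub_bounds hx.1 hxy' hy.2
    linarith
  · have := h.V_sub_bounds hy.1 hxy' hx.2
    linarith

theorem isGeodesic : IsGeodesic (γ '' Icc 0 1) := by
  intro p q
  have hp := h.norm_mem p.2
  have hq := h.norm_mem q.2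
  have hpq := h.intrinsic_eq_abs p q
  refine ⟨by rw [hpq]; exact ENNReal.ofReal_ne_top, ?_⟩
  set s := ‖(p : EuclideanSpace ℝ (Fin N))‖ with hs
  set t := ‖(q : EuclideanSpace ℝ (Fin N))‖ with ht
  set L := (intrinsic (γ '' Icc 0 1) p q).toReal with hL
  have hL' : L = |V γ s - V γ t| := by rw [hL, hpq, ENNReal.toReal_ofReal (abs_nonneg _)]
  -- a right inverse of `V`
  have hW : ∀ y ∈ uIcc (V γ s) (V γ t), ∃ x ∈ Icc (0 : ℝ) 1, V γ x = y := by
    intro y hy
    have h1 : uIcc s t ⊆ Icc (0 : ℝ) 1 := uIcc_subset_Icc hp hq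
    obtain ⟨x, hx, hxy⟩ := intermediate_value_uIcc (h.V_cont.mono h1) hy
    exact ⟨x, h1 hx, hxy⟩
  choose! W hW1 hW2 using hW
  -- the sign
  obtain ⟨ε, hε, hεt⟩ : ∃ ε : ℝ, |ε| = 1 ∧ V γ s + ε * L = V γ t := by
    rcases le_total (V γ s) (V γ t) with h1 | h1
    · exact ⟨1, abs_one, by rw [hL', abs_sub_comm, abs_of_nonneg (sub_nonneg.2 h1)]; ring⟩
    · exact ⟨-1, by simp, by rw [hL', abs_of_nonneg (sub_nonneg.2 h1)]; ring⟩
  have hmem : ∀ τ ∈ Icc 0 L, V γ s + ε * τ ∈ uIcc (V γ s) (V γ t) := by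
    intro τ hτ
    rw [← hεt]
    rcases abs_eq (zero_le_one) |>.1 hε with rfl | rfl
    · rw [uIcc_of_le (by linarith [hτ.1, hτ.2])]
      constructor <;> linarith [hτ.1, hτ.2]
    · rw [uIcc_of_ge (by linarith [hτ.1, hτ.2])]
      constructor <;> linarith [hτ.1, hτ.2]
  have hL0 : 0 ≤ L := ENNReal.toReal_nonneg
  classical
  let c : ℝ → γ '' Icc 0 1 := fun τ => if hτ : τ ∈ Icc 0 L then
    ⟨γ (W (V γ s + ε * τ)), mem _ (hW1 _ (hmem τ hτ))⟩ else p
  have hc : ∀ τ ∈ Icc 0 L, (c τ : EuclideanSpace ℝ (Fin N)) = γ (W (V γ s + ε * τ)) := by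
    intro τ hτ
    simp only [c, dif_pos hτ]
  refine ⟨c, ?_, ?_, ?_⟩
  · apply Subtype.ext
    rw [hc 0 ⟨le_rfl, hL0⟩, mul_zero, add_zero]
    have h1 : W (V γ s) = s := h.V_inj (hW1 _ left_mem_uIcc) hp (hW2 _ left_mem_uIcc)
    rw [h1]
    exact h.apply_norm p.2
  · apply Subtype.ext
    rw [hc L ⟨hL0, le_rfl⟩, hεt]
    have h1 : W (V γ t) = t := h.V_inj (hW1 _ right_mem_uIcc) hq (hW2 _ right_mem_uIcc)
    rw [h1]
    exact h.apply_norm q.2
  · intro τ hτ σ hσ
    rw [h.intrinsic_eq_abs, hc τ hτ, hc σ hσ, h.norm_eq _ (hW1 _ (hmem τ hτ)),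
      h.norm_eq _ (hW1 _ (hmem σ hσ)), hW2 _ (hmem τ hτ), hW2 _ (hmem σ hσ)]
    congr 1
    have : V γ s + ε * τ - (V γ s + ε * σ) = ε * (τ - σ) := by ring
    rw [this, abs_mul, hε, one_mul]

/-- Any two maps to the arc are homotopic. -/
theorem homotopic {X : Type*} [TopologicalSpace X] (f g : C(X, γ '' Icc 0 1)) : f.Homotopic g := by
  let φ : unitInterval × X → ℝ := fun x => (1 - (x.1 : ℝ)) * ‖(f x.2 : EuclideanSpace ℝ (Fin N))‖ +
    x.1 * ‖(g x.2 : EuclideanSpace ℝ (Fin N))‖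
  have hφ : ∀ x, φ x ∈ Icc (0 : ℝ) 1 := by
    intro x
    have h1 := h.norm_mem (f x.2).2
    have h2 := h.norm_mem (g x.2).2
    have h3 := x.1.2.1
    have h4 := x.1.2.2
    constructor
    · exact add_nonneg (mul_nonneg (by linarith) h1.1) (mul_nonneg h3 h2.1)
    · simp only [φ]
      nlinarith [mul_le_mul_of_nonneg_left h1.2 (by linarith : (0 : ℝ) ≤ 1 - x.1),
        mul_le_mul_of_nonneg_left h2.2 h3]
  have hφc : Continuous φ := by
    have h1 : Continuous fun x : unitInterval × X => (f x.2 : EuclideanSpace ℝ (Fin N)) :=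
      continuous_subtype_val.comp (f.continuous.comp continuous_snd)
    have h2 : Continuous fun x : unitInterval × X => (g x.2 : EuclideanSpace ℝ (Fin N)) :=
      continuous_subtype_val.comp (g.continuous.comp continuous_snd)
    have h3 : Continuous fun x : unitInterval × X => (x.1 : ℝ) :=
      continuous_subtype_val.comp continuous_fst
    exact ((continuous_const.sub h3).mul h1.norm).add (h3.mul h2.norm)
  exact ⟨{
    toFun := fun x => ⟨γ (φ x), mem _ (hφ x)⟩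
    continuous_toFun := Continuous.subtype_mk (h.cont.comp_continuous hφc hφ) _
    map_zero_left := by
      intro x
      apply Subtype.ext
      have : φ (0, x) = ‖(f x : EuclideanSpace ℝ (Fin N))‖ := by simp [φ]
      change γ (φ (0, x)) = f x
      rw [this]
      exact h.apply_norm (f x).2
    map_one_left := by
      intro x
      apply Subtype.ext
      have : φ (1, x) = ‖(g x : EuclideanSpace ℝ (Fin N))‖ := by simp [φ]
      change γ (φ (1, x)) = g x
      rw [this]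
      exact h.apply_norm (g x).2 }⟩

theorem m1 : M1 (γ '' Icc 0 1) := ⟨1, one_pos, fun _ _ f g _ => h.homotopic f g⟩

theorem m2 : M2 (γ '' Icc 0 1) := by
  refine ⟨1, one_pos, (Λ : ℝ) + 2, by have := Λ.coe_nonneg; linarith, fun p q _ => ?_⟩
  rw [h.intrinsic_eq_abs]
  have hp := h.norm_mem p.2
  have hq := h.norm_mem q.2
  have key : ∀ {p q : γ '' Icc 0 1}, ‖(p : EuclideanSpace ℝ (Fin N))‖ ≤
      ‖(q : EuclideanSpace ℝ (Fin N))‖ → dist p q ≤ V γ ‖(q : EuclideanSpace ℝ (Fin N))‖ -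
        V γ ‖(p : EuclideanSpace ℝ (Fin N))‖ ∧ V γ ‖(q : EuclideanSpace ℝ (Fin N))‖ -
        V γ ‖(p : EuclideanSpace ℝ (Fin N))‖ ≤ (Λ + 2) * dist p q := by
    intro p q hpq
    have hp := h.norm_mem p.2
    have hq := h.norm_mem q.2
    constructor
    · have h1 := eVariationOn.edist_le γ (left_mem_Icc.2 hpq) (right_mem_Icc.2 hpq)
      rw [← h.V_sub hp.1 hpq hq.2, h.apply_norm p.2, h.apply_norm q.2, edist_dist] at h1
      have h2 : 0 ≤ V γ ‖(q : EuclideanSpace ℝ (Fin N))‖ - V γ ‖(p : EuclideanSpace ℝ (Fin N))‖ := by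
        have := (h.V_sub_bounds hp.1 hpq hq.2).1; linarith
      exact (ENNReal.ofReal_le_ofReal_iff h2).1 h1
    · refine (h.V_sub_bounds hp.1 hpq hq.2).2.trans ?_
      have h1 : ‖(q : EuclideanSpace ℝ (Fin N))‖ - ‖(p : EuclideanSpace ℝ (Fin N))‖ ≤ dist p q := by
        rw [dist_comm, Subtype.dist_eq, dist_eq_norm]
        exact norm_sub_norm_le _ _
      have h2 : 0 ≤ dist p q := dist_nonneg
      have h3 := mul_le_mul_of_nonneg_left h1 Λ.coe_nonneg
      nlinarith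
  rcases le_total ‖(p : EuclideanSpace ℝ (Fin N))‖ ‖(q : EuclideanSpace ℝ (Fin N))‖ with hpq | hpq
  · have h1 := key hpq
    have h2 : (0 : ℝ) ≤ dist p q := dist_nonneg
    rw [abs_sub_comm, abs_of_nonneg (h2.trans h1.1)]
    exact ⟨ENNReal.ofReal_le_ofReal h1.1, ENNReal.ofReal_le_ofReal h1.2⟩
  · have h1 := key hpq
    have h2 : (0 : ℝ) ≤ dist q p := dist_nonneg
    rw [abs_of_nonneg (h2.trans h1.1), dist_comm]
    exact ⟨ENNReal.ofReal_le_ofReal h1.1, ENNReal.ofReal_le_ofReal h1.2⟩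

theorem retract : ∃ (U : Set (EuclideanSpace ℝ (Fin N))) (π : EuclideanSpace ℝ (Fin N) →
        EuclideanSpace ℝ (Fin N)), U ∈ 𝓝ˢ (γ '' Icc 0 1) ∧ ContinuousOn π U ∧
        MapsTo π U (γ '' Icc 0 1) ∧ (∀ p ∈ γ '' Icc 0 1, π p = p) ∧ M3 (γ '' Icc 0 1) U π := by
  have hmin : ∀ x : EuclideanSpace ℝ (Fin N), min ‖x‖ 1 ∈ Icc (0 : ℝ) 1 := fun x =>
    ⟨le_min (norm_nonneg _) zero_le_one, min_le_right _ _⟩
  refine ⟨univ, fun x => γ (min ‖x‖ 1), univ_mem, ?_, fun x _ => mem _ (hmin x), ?_, ?_⟩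
  · exact (h.cont.comp_continuous (by fun_prop) hmin).continuousOn
  · intro p hp
    simp only
    rw [min_eq_left (h.norm_mem hp).2, h.apply_norm hp]
  · refine ⟨fun r => ((Λ : ℝ) + 2) * r, fun r hr _ => ⟨mul_pos (by have := Λ.coe_nonneg; positivity) hr, ?_⟩,
      ?_⟩
    · intro x hx
      obtain ⟨p, hp, hxp⟩ := h.compact.exists_infDist_eq_dist h.connected.nonempty x
      have hd : dist x p ≤ r := by rw [← hxp]; exact hx
      have h1 : ‖γ (min ‖x‖ 1) - p‖ ≤ Λ * r := by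
        have h2 := h.lip.dist_le_mul _ (hmin x) _ (h.norm_mem hp)
        rw [h.apply_norm hp, dist_eq_norm] at h2
        refine h2.trans (mul_le_mul_of_nonneg_left ?_ Λ.coe_nonneg)
        rw [Real.dist_eq]
        have h3 : ‖p‖ = min ‖p‖ 1 := (min_eq_left (h.norm_mem hp).2).symm
        rw [h3]
        refine (abs_min_sub_min_le_max _ _ _ _).trans ?_
        rw [sub_self, abs_zero, max_eq_left (abs_nonneg _)]
        refine (abs_norm_sub_norm_le x p).trans ?_
        rwa [← dist_eq_norm]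
      calc ‖γ (min ‖x‖ 1) - x‖ ≤ ‖γ (min ‖x‖ 1) - p‖ + ‖p - x‖ := norm_sub_le_norm_sub_add_norm_sub _ _ _
        _ ≤ Λ * r + r := add_le_add h1 (by rw [← dist_eq_norm, dist_comm]; exact hd)
        _ < (Λ + 2) * r := by linarith
    · have : Tendsto (fun r : ℝ => ((Λ : ℝ) + 2) * r) (𝓝 0) (𝓝 (((Λ : ℝ) + 2) * 0)) :=
        (continuous_const.mul continuous_id).tendsto 0
      rw [mul_zero] at this
      exact this.mono_left nhdsWithin_le_nhds

theorem admissible : Admissible (γ '' Icc 0 1) :=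
  ⟨h.compact, h.connected, h.isGeodesic, h.retract, h.m1, h.m2⟩

end RadialArc

end Q181.Arc
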