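import Mathlib

/-!
# Logarithms of nowhere vanishing functions on contractible spaces
-/

open Set Topology Filter

namespace Q181.Arc

/-- A nowhere vanishing complex function on a space whose identity is null-homotopic has a
continuous logarithm. -/
theorem exists_log {A : Type*} [TopologicalSpace A] (x0 : A)
    (H : (ContinuousMap.const A x0).Homotopic (ContinuousMap.id A)) (F : C(A, {z : ℂ // z ≠ 0})) :
    ∃ g : C(A, ℂ), ∀ x, Complex.exp (g x) = (F x : ℂ) := by
  obtain ⟨K⟩ := H
  have cov := Complex.isCoveringMap_exp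
  let G : C(unitInterval × A, {z : ℂ // z ≠ 0}) := F.comp K.toContinuousMap
  have h0 : ∀ x, G (0, x) = (fun z : ℂ => (⟨_, z.exp_ne_zero⟩ : {z : ℂ // z ≠ 0}))
      ((ContinuousMap.const A (Complex.log (F x0))) x) := by
    intro x
    apply Subtype.ext
    change (F (K (0, x)) : ℂ) = Complex.exp (Complex.log (F x0))
    rw [Complex.exp_log (F x0).2, K.apply_zero]
    rfl
  let L := cov.liftHomotopy G (ContinuousMap.const A (Complex.log (F x0))) h0
  refine ⟨⟨fun x => L (1, x), L.continuous.comp (by fun_prop)⟩, fun x => ?_⟩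
  have h1 := congrFun (cov.liftHomotopy_lifts G (ContinuousMap.const A (Complex.log (F x0))) h0)
    (1, x)
  have h2 := congrArg Subtype.val h1
  change Complex.exp (L (1, x)) = (F (K (1, x)) : ℂ) at h2
  rw [K.apply_one] at h2
  exact h2

/-- The increment of a continuous logarithm along a short path. -/
theorem log_increment {A : Type*} [TopologicalSpace A] {g : C(A, ℂ)} {F : C(A, {z : ℂ // z ≠ 0})}
    (hg : ∀ x, Complex.exp (g x) = (F x : ℂ)) (x : C(unitInterval, A))
    (hx : ∀ τ, ‖(F (x τ) : ℂ) - F (x 0)‖ < ‖(F (x 0) : ℂ)‖) :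
    g (x 1) - g (x 0) = Complex.log ((F (x 1) : ℂ) / F (x 0)) := by
  have cov := Complex.isCoveringMap_exp
  have hne : ∀ τ, (F (x τ) : ℂ) ≠ 0 := fun τ => (F (x τ)).2
  have hslit : ∀ τ, (F (x τ) : ℂ) / F (x 0) ∈ Complex.slitPlane := by
    intro τ
    have h1 : ‖(F (x τ) : ℂ) / F (x 0) - 1‖ < 1 := by
      have : (F (x τ) : ℂ) / F (x 0) - 1 = ((F (x τ) : ℂ) - F (x 0)) / F (x 0) := by
        field_simp [hne 0]
      rw [this, norm_div, div_lt_one (norm_pos_iff.2 (hne 0))]
      exact hx τ
    have h2 : (F (x τ) : ℂ) / F (x 0) = 1 + ((F (x τ) : ℂ) / F (x 0) - 1) := by ring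
    rw [h2]
    exact Complex.mem_slitPlane_of_norm_lt_one h1
  have hFc : Continuous fun τ => (F (x τ) : ℂ) :=
    continuous_subtype_val.comp (F.continuous.comp x.continuous)
  have h1 : Continuous fun τ => g (x τ) := g.continuous.comp x.continuous
  have h2 : Continuous fun τ => g (x 0) + Complex.log ((F (x τ) : ℂ) / F (x 0)) :=
    continuous_const.add ((hFc.div_const _).clog hslit)
  have h3 := cov.eq_of_comp_eq h1 h2 (by
    funext τ
    apply Subtype.ext
    change Complex.exp (g (x τ)) = Complex.exp (g (x 0) + Complex.log ((F (x τ) : ℂ) / F (x 0)))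
    rw [Complex.exp_add, hg, hg, Complex.exp_log (div_ne_zero (hne τ) (hne 0))]
    field_simp [hne 0]) 0 (by
    change g (x 0) = g (x 0) + Complex.log ((F (x 0) : ℂ) / F (x 0))
    rw [div_self (hne 0), Complex.log_one, add_zero])
  have h4 := congrFun h3 1
  rw [h4]
  ring

end Q181.Arc
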